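import Pool.Agent.H.MP_07c8c2_lc.A

set_option autoImplicit false

open Set Pool.Agent.H.MP_07c8c2_lc

namespace Pool.Agent.H.MP_18f314_lc

/-- names for subsets of X -/
abbrev N1 (X P : Type) : Type := Set (X × P)

/-- names for families of subsets of X -/
abbrev N2 (X P : Type) : Type := Set (N1 X P × P)

section
variable {P : Type} [Preorder P] {X : Type}

/-- p forces an implication -/
def Im (φ ψ : P → Prop) (p : P) : Prop := ∀ q ≤ p, φ q → ψ q

/-- p forces that the set named by A belongs to the family named by U -/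
def Mem2 (A : N1 X P) (U : N2 X P) : P → Prop :=
  Ex fun (x : N1 X P × P) r => r ≤ x.2 ∧ x ∈ U ∧ Eqv A x.1 r

/-- p forces that U and V name the same family -/
def Eqv2 (U V : N2 X P) (p : P) : Prop := ∀ A, ∀ q ≤ p, (Mem2 A U q ↔ Mem2 A V q)

/-- strongly proper for stationarily many countable sets of conditions -/
def SP (P : Type) [Preorder P] : Prop := ∀ g : List P → P, ∃ M : Set P, M.Countable ∧
  (∀ l : List P, (∀ a ∈ l, a ∈ M) → g l ∈ M) ∧ ∀ p ∈ M, ∃ q ≤ p, ∀ r ≤ q, ∃ r' ∈ M, ∀ s ∈ M,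
    s ≤ r' → ∃ t, t ≤ s ∧ t ≤ r

variable [TopologicalSpace X]

/-- p forces that A names an open set of the topology generated by the ground model open sets -/
def Op (A : N1 X P) (p : P) : Prop := ∀ x, Im (Mem x A)
  (Ex fun (W : Set X) r => IsOpen W ∧ x ∈ W ∧ ∀ y ∈ W, Mem y A r) p

/-- p forces that U names a family of open sets -/
def Ops (U : N2 X P) (p : P) : Prop := ∀ A, Im (Mem2 A U) (Op A) p

/-- p forces that U names an open cover -/
def Cov (U : N2 X P) (p : P) : Prop := Ops U p ∧ ∀ x, Ex (fun A r => Mem2 A U r ∧ Mem x A r) p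

/-- R l a q reads: q forces that the strategy answers the finite set listed by a to the list l of
moves of I; Lg U q reads: q forces that U is a legal move of I. The forcing clauses below p for a
strategy of II answering with finite subsets -/
structure Strat (Lg : N2 X P → P → Prop) (R : List (N2 X P) → List (N1 X P) → P → Prop) (p : P) :
    Prop where
  mono : ∀ l a q r, R l a q → r ≤ q → R l a r
  ext : ∀ l m a, ∀ q ≤ p, List.Forall₂ (fun U V => Eqv2 U V q) l m → R l a q → R m a q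
  single : ∀ l a b, ∀ q ≤ p, R l a q → R l b q → ∀ B ∈ b, Ex (fun A r => A ∈ a ∧ Eqv B A r) q
  total : ∀ U l, ∀ q ≤ p, (∀ V ∈ U :: l, Lg V q) →
    Ex (fun a r => R (U :: l) a r ∧ ∀ A ∈ a, Mem2 A U r) q

end

/-- Cohen forcing -/
structure Co : Type where
  l : List Bool

instance : Preorder Co where
  le q p := p.l <+: q.l
  le_refl _ := List.prefix_rfl
  le_trans _ _ _ a b := b.trans a

instance : Countable Co := Function.Injective.countable (f := Co.l) fun _ _ => congrArg Co.mk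

instance : Nonempty Co := ⟨⟨[]⟩⟩

lemma sp : SP Co := fun _ => ⟨univ, countable_univ, fun _ _ => trivial, fun p _ =>
  ⟨p, le_rfl, fun r _ => ⟨r, trivial, fun s _ e => ⟨s, le_rfl, e⟩⟩⟩⟩

/-- basic clopen sets -/
def C (s : List Bool) : Set (ℕ → Bool) := {x | (List.range s.length).map x = s}

lemma cm {s t : List Bool} (h : s <+: t) : C t ⊆ C s := fun x (e : _ = _) => by
  show _ = _
  conv_rhs => rw [List.prefix_iff_eq_take.1 h, ← e, ← List.map_take, List.take_range,
    min_eq_left h.length_le]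

lemma cc (s : List Bool) : IsClopen (C s) := by
  have : C s = (fun x (i : Fin s.length) => x i) ⁻¹' {g | List.ofFn g = s} := by
    ext x
    simp only [C, mem_ofPred_eq, mem_preimage, List.ofFn_eq_map]
    rw [← List.map_coe_finRange_eq_range, List.map_map]
    rfl
  exact this ▸ (isClopen_discrete _).preimage (by fun_prop)

lemma cn (s : List Bool) : (C s).Nonempty := ⟨fun i => s.getD i false, by
  apply List.ext_getElem <;> simp +contextual⟩

/-- check names of complements of basic sets -/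
def u (s : List Bool) : N1 (ℕ → Bool) Co := {x | x.1 ∉ C s}

lemma mu {x : ℕ → Bool} {s : List Bool} {q : Co} : Mem x (u s) q ↔ x ∉ C s :=
  ⟨fun h => by obtain ⟨r, -, t, -, e⟩ := h q le_rfl; exact e,
    fun h r _ => ⟨r, le_rfl, r, le_rfl, h⟩⟩

/-- the covers played by I -/
def U (t : List Bool) : N2 (ℕ → Bool) Co := range fun z => (u (t ++ z.l), z)

lemma uo (t : List Bool) (q : Co) : Ops (U t) q := by
  intro A r _ a x s b c v d
  obtain ⟨w, e, _, f, ⟨z, rfl⟩, g⟩ := a v (d.trans b)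
  exact ⟨w, e, _, (cc _).compl.2, mu.1 ((g x w le_rfl).1 (c.mono (e.trans d))),
    fun y i => (g y w le_rfl).2 (mu.2 i)⟩

lemma um (t : List Bool) {q r : Co} (h : r ≤ q) : Mem2 (u (t ++ q.l)) (U t) r :=
  fun s a => ⟨s, le_rfl, (_, q), a.trans h, ⟨q, rfl⟩, fun _ _ _ => Iff.rfl⟩

lemma uc (t : List Bool) (q : Co) : Cov (U t) q := ⟨uo t q, fun x r _ =>
  ⟨⟨r.l ++ [!x (t ++ r.l).length]⟩, List.prefix_append _ _, _, um t le_rfl, mu.2 fun (e : _ = _) => by
    rw [← List.append_assoc, List.length_append, List.length_singleton, List.range_succ,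
      List.map_append] at e
    simpa using List.append_inj_right' e rfl⟩⟩

lemma fl {t : List Bool} {a : List (N1 (ℕ → Bool) Co)} {q : Co} (h : ∀ A ∈ a, Mem2 A (U t) q) :
    ∃ r ≤ q, ∀ A ∈ a, ∀ x ∈ C (t ++ r.l), ∀ s ≤ r, ¬ Mem x A s := by
  induction a with
  | nil => exact ⟨q, le_rfl, by simp⟩
  | cons A a k =>
    obtain ⟨r, b, c⟩ := k fun B d => h B (.tail _ d)
    obtain ⟨s, d, _, e, ⟨z, rfl⟩, f⟩ := h A (.head _) r b
    refine ⟨s, d.trans b, List.forall_mem_cons.2 ⟨fun x i v j m => mu.1 ((f x v j).1 m)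
      (cm ((List.prefix_append_right_inj t).2 e) i), fun B g x i v j => c B g x
        (cm ((List.prefix_append_right_inj t).2 d) i) v (j.trans d)⟩⟩

theorem core {Lg : N2 (ℕ → Bool) Co → Co → Prop} (l1 : ∀ t q, Lg (U t) q)
    (l2 : ∀ V p, (∀ q ≤ p, ∃ r ≤ q, ∃ t, Eqv2 V (U t) r) → Lg V p) {p : Co}
    {R : List (N2 (ℕ → Bool) Co) → List (N1 (ℕ → Bool) Co) → Co → Prop} (h : Strat Lg R p) :
    ∃ f : ℕ → N2 (ℕ → Bool) Co, (∀ n, Lg (f n) p) ∧ ∃ x, ∀ n a, ∀ r ≤ p, R (hist f n) a r →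
      ∀ A ∈ a, ¬ Mem x A r := by
  let Ms := fun x (l : List (List Bool)) r => ∀ s ≤ r, ∀ a, R (l.map U) a s → ∀ A ∈ a, ¬ Mem x A s
  have st : ∀ (k : Co × List (List Bool)) t, ∃ s : Co, k.1 ≤ p → s ≤ k.1 ∧
      ∀ x ∈ C (t ++ s.l), Ms x (t :: k.2) s := fun k t => by
    by_cases e : k.1 ≤ p
    · obtain ⟨r, b, a, c, d⟩ := h.total (U t) (k.2.map U) _ e (by simp [l1]) _ le_rfl
      obtain ⟨s, f, g⟩ := fl d
      refine ⟨s, fun _ => ⟨f.trans b, fun x i v j w m B n o => ?_⟩⟩
      obtain ⟨z, a1, A, a2, a3⟩ := h.single _ a w v ((j.trans f).trans (b.trans e))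
        (h.mono _ _ _ _ c (j.trans f)) m B n v le_rfl
      exact g A a2 x i z (a1.trans j) ((a3 x z le_rfl).1 (o.mono a1))
    · exact ⟨p, fun a => (e a).elim⟩
  choose g hg using st
  obtain ⟨e, he⟩ := exists_surjective_nat (Co × List (List Bool))
  let T : ℕ → List Bool := Nat.rec [] fun n t => t ++ (g (e n) t).l
  obtain ⟨x, hx⟩ := IsCompact.nonempty_iInter_of_sequence_nonempty_isCompact_isClosed
    (fun n => C (T n)) (fun n => cm (List.prefix_append _ _)) (fun n => cn _) (cc _).1.isCompact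
      fun n => (cc _).1
  let W : List (List Bool) → Co → Prop := List.rec (fun _ => True) fun t l P r => P r ∧
    Ms x (t :: l) r ∧ ∀ s : List Bool, Encodable.encode s < Encodable.encode t → ∀ q ≤ r, ¬ Ms x (s :: l) q
  have w1 : ∀ l q r, W l q → r ≤ q → W l r := fun l => by
    induction l with
    | nil => exact fun _ _ _ _ => trivial
    | cons t l k => exact fun q r a b => ⟨k _ _ a.1 b, fun s c => a.2.1 s (c.trans b),
      fun s c v d => a.2.2 s c v (d.trans b)⟩
  have w2 : ∀ l m q, l.length = m.length → W l q → W m q → l = m := fun l => by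
    induction l with
    | nil => exact fun m _ a _ _ => (List.length_eq_zero_iff.1 a.symm).symm
    | cons t l k =>
      rintro (_ | ⟨s, m⟩) q a b c
      · cases a
      cases k m q (Nat.succ.inj a) b.1 c.1
      rcases lt_trichotomy (Encodable.encode t) (Encodable.encode s) with d | d | d
      exacts [(c.2.2 t d q le_rfl b.2.1).elim, Encodable.encode_injective d ▸ rfl,
        (b.2.2 s d q le_rfl c.2.1).elim]
  have w3 : ∀ n, ∀ q ≤ p, ∃ r ≤ q, ∃ l, l.length = n ∧ W l r := fun n => by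
    induction n with
    | zero => exact fun q _ => ⟨q, le_rfl, [], rfl, trivial⟩
    | succ n k =>
      intro q a
      obtain ⟨r, b, l, rfl, c⟩ := k q a
      obtain ⟨m, d⟩ := he (r, l)
      obtain ⟨i, j⟩ := hg (e m) (T m) (d ▸ b.trans a)
      obtain ⟨t, ⟨s, y, z⟩, o⟩ := (measure (Encodable.encode (α := List Bool))).wf.has_min
        {t | ∃ s ≤ r, Ms x (t :: l) s} ⟨T m, _, by simpa only [d] using i, by
          simpa only [d] using j x (mem_iInter.1 hx (m + 1))⟩
      exact ⟨s, y.trans b, t :: l, rfl, w1 _ _ _ c y, z, fun v i w j k => o v ⟨w, j.trans y, k⟩ i⟩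
  let f : ℕ → N2 (ℕ → Bool) Co := fun n => {y | ∃ t l, l.length = n ∧ W (t :: l) y.2 ∧
    ∃ s, y.2 ≤ s ∧ (y.1, s) ∈ U t}
  have f1 : ∀ t l r, W (t :: l) r → Eqv2 (f l.length) (U t) r := fun t l r a A q b =>
    ⟨fun c s d => by
      obtain ⟨v, i, y, j, ⟨t', m, k, n, z, o, o'⟩, w⟩ := c s d
      cases w2 (t' :: m) (t :: l) v (congrArg (· + 1) k) (w1 (t' :: m) _ _ n j)
        (w1 (t :: l) _ _ a ((i.trans d).trans b))
      exact ⟨v, i, (y.1, z), j.trans o, o', w⟩, fun c s d => by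
      obtain ⟨v, i, y, j, k, w⟩ := c s d
      exact ⟨v, i, (y.1, v), le_rfl, ⟨t, l, rfl, w1 (t :: l) _ _ a ((i.trans d).trans b), y.2, j, k⟩,
        w⟩⟩
  have f2 : ∀ l t r, W (t :: l) r → List.Forall₂ (fun U V => Eqv2 U V r) (hist f l.length)
      ((t :: l).map U) := fun l => by
    induction l with
    | nil => exact fun t r a => .cons (f1 t [] r a) .nil
    | cons s l k => exact fun t r a => .cons (f1 t (s :: l) r a) (k s r a.1)
  refine ⟨f, fun n => l2 _ _ fun q a => ?_, x, fun n a r b c A d i => ?_⟩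
  · obtain ⟨r, b, _ | ⟨t, l⟩, c, d⟩ := w3 (n + 1) q a
    · cases c
    · exact ⟨r, b, t, Nat.succ.inj c ▸ f1 t l r d⟩
  · obtain ⟨s, j, _ | ⟨t, l⟩, k, m⟩ := w3 (n + 1) r b
    · cases k
    · cases Nat.succ.inj k
      exact m.2.1 s le_rfl a (h.ext _ _ _ s (j.trans b) (f2 l t s m) (h.mono _ _ _ _ c j)) A d
        (i.mono j)

lemma os {V : N2 (ℕ → Bool) Co} {p : Co} (h : ∀ q ≤ p, ∃ r ≤ q, ∃ t, Eqv2 V (U t) r) : Ops V p :=
  fun A q a b x r c d => Ex.reg fun s e => by
    obtain ⟨v, f, t, g⟩ := h s ((e.trans c).trans a)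
    exact ⟨v, f, uo t v A v le_rfl ((g A v le_rfl).1 (b.mono ((f.trans e).trans c))) x v le_rfl
      (d.mono (f.trans e))⟩

end Pool.Agent.H.MP_18f314_lc
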